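import Pool.Agent.NE.Stmts

/-! Squad NLE (MP_d20576_an), row MSI (helper62): the weights do not depend on the stage. -/

set_option autoImplicit false

open Finset Filter Topology

noncomputable section

namespace Pool.Agent.NE.H62

theorem msi (hAnc : AncStmt) (hNnb : NnbStmt) (hTrf : TrfStmt) (hClc : ClcStmt) : MsiStmt := by
  intro N p s σ θ hT
  obtain ⟨-, hn1, -, hmono, -⟩ := hNnb N hT.two
  obtain ⟨-, hpos, -⟩ := hTrf N p s σ θ hT
  obtain ⟨hc1, hc2, hc3⟩ := hClc N p s σ θ hT
  have hstep : ∀ T i, i < nn N T → cl N σ (nn N T) (T + 1) (θ (T + 1)) i = θ T i := by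
    intro T i hi
    rw [hc1 T (θ (T + 1)) i hi]
    by_cases h : i = us T
    · rw [if_pos h, h]
      have h1 : ∀ j ∈ range (N T), θ (T + 1) (ix (nn N T) (us T) j) = p T j * θ T (us T) :=
        fun j hj => hT.th1 T j (mem_range.1 hj)
      rw [sum_congr rfl h1, ← sum_mul, hT.sum, one_mul]
    · rw [if_neg h]
      exact hT.th2 T i hi h
  have h1 : ∀ n t T i, 1 ≤ n → n ≤ nn N t → t ≤ T → i < n →
      ms N σ θ n T i = ms N σ θ n t i := by
    intro n t T i hn hnt htT hi
    induction T, htT using Nat.le_induction with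
    | base => rfl
    | succ T hT' ih =>
      rw [← ih]
      unfold ms
      rw [hc2 n T (T + 1) (θ (T + 1)) i hn (hnt.trans (hmono hT')) (Nat.le_succ T) hi]
      unfold cl
      refine sum_congr rfl fun j hj => ?_
      exact hstep T j (mem_range.1 (mem_filter.1 hj).1)
  refine ⟨h1, ?_, ?_⟩
  · intro n t i hn hnt hi
    unfold ms cl
    apply sum_pos
    · intro j hj
      exact hpos t j (mem_range.1 (mem_filter.1 hj).1)
    · refine ⟨i, mem_filter.2 ⟨mem_range.2 (lt_of_lt_of_le hi hnt), ?_⟩⟩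
      exact (hAnc σ 0 (fun i _ h => absurd h (Nat.not_lt_zero i))).1 n i hi
  · intro t T i htT hi
    rw [h1 (nn N t) t T i ((Nat.le_add_left 1 t).trans (hn1 t)) le_rfl htT hi]
    exact hc3 t (θ t) i hi

end Pool.Agent.NE.H62
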